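import Pool.Agent.Helper27.RV.St

set_option autoImplicit false

open Cardinal Ordinal Set

universe u

namespace Pool.Agent.Helper42.RV

open Pool.Agent.Helper27.RV

theorem pCVO : StCVO.{u} := by
  classical
  rintro K β D χ t ⟨e0⟩ ⟨ι, hι, P0, hP⟩
  have hcard : #((#ι).ord.ToType) = #ι := by
    rw [mk_toType, card_ord]
  obtain ⟨φ⟩ := Cardinal.eq.1 hcard
  refine ⟨(#ι).ord, ord_lt_ord.2 hι,
    fun o k => if h : o < (#ι).ord then P0 (φ (ToType.mk ⟨o, h⟩)) k else 0, fun y hy => ?_⟩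
  obtain ⟨I, hI, h1⟩ := hP y hy
  have hne : I.Nonempty := by
    obtain ⟨i, hi, -⟩ := h1 e0
    exact ⟨i, hi⟩
  obtain ⟨e, -, he2⟩ := enum_set (K := D) I hI hne
  refine ⟨fun d => ((φ.symm (e d)).toOrd : Ordinal.{u}), fun d => (φ.symm (e d)).toOrd.2,
    fun b => ?_⟩
  obtain ⟨i, hi, k, hk⟩ := h1 b
  obtain ⟨d, hd⟩ := he2 i hi
  refine ⟨d, k, ?_⟩
  have hlt : ((φ.symm (e d)).toOrd : Ordinal.{u}) < (#ι).ord := (φ.symm (e d)).toOrd.2
  rw [hk]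
  change P0 i k = if h : ((φ.symm (e d)).toOrd : Ordinal.{u}) < (#ι).ord then
    P0 (φ (ToType.mk ⟨((φ.symm (e d)).toOrd : Ordinal.{u}), h⟩)) k else 0
  rw [dif_pos hlt]
  have h2 : (ToType.mk ⟨((φ.symm (e d)).toOrd : Ordinal.{u}), hlt⟩ : (#ι).ord.ToType) =
      φ.symm (e d) := by
    simp [ToType.toOrd]
  rw [h2, Equiv.apply_symm_apply, hd]

end Pool.Agent.Helper42.RV
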